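import Pool.Agent.Lib.MP_a78e1f_lc.K.Iface
import Pool.Agent.Lib.MP_e6fef2_lc.H57.Alg

/-!
Module NEWS: the Sacks real is new.
-/

set_option autoImplicit false

universe u v w

open Cardinal Filter MeasureTheory

namespace Pool.Agent.Lib.MP_a78e1f_lc.H18

open Pool.Agent.Lib.MP_100a6c_lc
open Pool.Agent.Lib.MP_c5d73d_lc.F (pr)
open Pool.Agent.Lib.MP_e6fef2_lc
open Pool.Agent.Lib.MP_6d445e_gt
open Pool.Agent.Lib.MP_a78e1f_lc
open Pool.Agent.Lib.MP_e6fef2_lc.H57 (ce_inf ce_mono ce_bot prj_inf' prj_inf prj_eq_bot prj_mono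
  prj_bot)

/-- The digits of the Sacks real. -/
noncomputable def Rs (A : Type u) [CompleteBooleanAlgebra A] (n : ℕ) : tC IsSac A :=
  ⨆ s : List ℕ, ⨆ _ : s.length = n, tND (s ++ [1])

theorem not_cmp {s t : List ℕ} (h : s.length = t.length) (i j : ℕ) (hij : i ≠ j) :
    ¬ Cmp (s ++ [i]) (t ++ [j]) := by
  have hl : (s ++ [i]).length = (t ++ [j]).length := by simp [h]
  rintro (h1 | h1)
  · have h2 := h1.eq_of_length hl
    have h3 := List.append_inj_right h2 h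
    simp at h3
    exact hij h3
  · have h2 := h1.eq_of_length hl.symm
    have h3 := List.append_inj_right h2 h.symm
    simp at h3
    exact hij h3.symm

theorem case_a {B : Type*} [BooleanAlgebra B] {d R e : B} (h : d ≤ (R ⊓ e) ⊔ (Rᶜ ⊓ eᶜ))
    (h4 : d ≤ R) (h5 : d ≤ eᶜ) : d = ⊥ := by
  have h6 : d ≤ ((R ⊓ e) ⊔ (Rᶜ ⊓ eᶜ)) ⊓ (R ⊓ eᶜ) := le_inf h (le_inf h4 h5)
  refine eq_bot_iff.2 (h6.trans ?_)
  rw [inf_sup_right]
  refine sup_le ?_ ?_
  · refine le_trans (le_inf (inf_le_left.trans inf_le_right) (inf_le_right.trans inf_le_right)) ?_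
    rw [inf_compl_self]
  · refine le_trans (le_inf (inf_le_right.trans inf_le_left) (inf_le_left.trans inf_le_left)) ?_
    rw [inf_compl_self]

theorem case_b {B : Type*} [BooleanAlgebra B] {d R e : B} (h : d ≤ (R ⊓ e) ⊔ (Rᶜ ⊓ eᶜ))
    (h4 : d ⊓ R = ⊥) (h5 : d ≤ e) : d = ⊥ := by
  have h6 : d ≤ d ⊓ ((R ⊓ e) ⊔ (Rᶜ ⊓ eᶜ)) := le_inf le_rfl h
  refine eq_bot_iff.2 (h6.trans ?_)
  rw [inf_sup_left]
  refine sup_le ?_ ?_
  · rw [← inf_assoc, h4, bot_inf_eq]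
  · refine le_trans (le_inf (inf_le_left.trans h5) (inf_le_right.trans inf_le_right)) ?_
    rw [inf_compl_self]

/-- Module NEWS. -/
theorem news (hgnd : GndStatement.{u}) (hgmx : GmxStatement.{u}) (hfam : FamStatement) :
    NewsStatement.{u} := by
  intro A _
  have hT : TFam IsSac := hfam.2.2
  obtain ⟨hne, _, _, hinc, _, _, hprj, _⟩ := hgnd IsSac hT A
  obtain ⟨_, hdens, hprG, _, _, _, _, _⟩ := hgmx IsSac hT A
  haveI := hne
  have hE : IsCE (tE IsSac A) := (all_tw1 A (TX IsSac A) (TQ IsSac A)).1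
  refine ⟨Rs A, fun ψ => ?_⟩
  by_contra hc
  obtain ⟨b, τ, hb, hle⟩ := hdens _ hc
  -- two incomparable nodes
  have h1 : b ≤ ⨆ t : List ℕ, τ.1 (t ++ [0]) ⊓ τ.1 (t ++ [1]) := by
    refine le_of_ae ?_
    filter_upwards [τ.2, ae_iSup fun t : List ℕ => τ.1 (t ++ [0]) ⊓ τ.1 (t ++ [1])] with g h1 h2 _
    rw [h2]
    obtain ⟨t, _, h3, h4⟩ := h1.spl [] h1.nil
    refine ⟨t, ?_⟩
    rw [g.mem_inf]
    exact ⟨h3, h4⟩
  obtain ⟨t, ht⟩ : ∃ t : List ℕ, b ⊓ (τ.1 (t ++ [0]) ⊓ τ.1 (t ++ [1])) ≠ ⊥ := by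
    by_contra hcon
    push Not at hcon
    apply hb
    have h2 : b ⊓ ⨆ t : List ℕ, τ.1 (t ++ [0]) ⊓ τ.1 (t ++ [1]) = ⊥ := by
      rw [inf_iSup_eq]
      simp [hcon]
    rw [inf_eq_left.2 h1] at h2
    exact h2
  set b1 := b ⊓ (τ.1 (t ++ [0]) ⊓ τ.1 (t ++ [1])) with hb1
  have hb1b : b1 ≤ b := inf_le_left
  have hb10 : b1 ≤ τ.1 (t ++ [0]) := inf_le_right.trans inf_le_left
  have hb11 : b1 ≤ τ.1 (t ++ [1]) := inf_le_right.trans inf_le_right
  -- positive elements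
  have key : ∀ (b2 : A) (s : List ℕ), b2 ≠ ⊥ → b2 ≤ b1 → b2 ≤ τ.1 s →
      tE IsSac A b2 ⊓ (tG τ ⊓ tND s) ≠ ⊥ := by
    intro b2 s h2 _ h3 h4
    have h5 : prj (tE IsSac A) (tE IsSac A b2 ⊓ (tG τ ⊓ tND s)) = b2 :=
      (prj_inf' hE _ _).trans (by rw [hprj]; exact inf_eq_left.2 h3)
    rw [h4, prj_bot hE] at h5
    exact h2 h5.symm
  have hall : ∀ (b2 : A) (s : List ℕ), b2 ≤ b1 → tE IsSac A b2 ⊓ (tG τ ⊓ tND s) ≤
      (Rs A t.length ⊓ tE IsSac A (ψ t.length)) ⊔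
        ((Rs A t.length)ᶜ ⊓ (tE IsSac A (ψ t.length))ᶜ) := by
    intro b2 s h2
    have h3 : tE IsSac A b2 ⊓ (tG τ ⊓ tND s) ≤ tE IsSac A b ⊓ tG τ :=
      inf_le_inf (ce_mono hE (h2.trans hb1b)) inf_le_left
    refine h3.trans (hle.trans ?_)
    exact iInf_le _ t.length
  by_cases hψ : b1 ⊓ ψ t.length = ⊥
  · -- the digit of `ψ` is zero
    have h2 : b1 ≤ (ψ t.length)ᶜ := le_compl_iff_disjoint_right.2 (disjoint_iff.2 hψ)
    apply key b1 (t ++ [1]) ht le_rfl hb11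
    have h3 := hall b1 (t ++ [1]) le_rfl
    set d := tE IsSac A b1 ⊓ (tG τ ⊓ tND (t ++ [1])) with hd
    have h4 : d ≤ Rs A t.length := by
      refine (inf_le_right.trans inf_le_right).trans ?_
      exact le_iSup_of_le t (le_iSup_of_le rfl le_rfl)
    have h5 : d ≤ (tE IsSac A (ψ t.length))ᶜ := by
      rw [← hE.compl]
      exact inf_le_left.trans (ce_mono hE h2)
    exact case_a h3 h4 h5
  · -- the digit of `ψ` is one on `b1 ⊓ ψ n`
    apply key (b1 ⊓ ψ t.length) (t ++ [0]) hψ inf_le_left (inf_le_left.trans hb10)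
    have h3 := hall (b1 ⊓ ψ t.length) (t ++ [0]) inf_le_left
    set d := tE IsSac A (b1 ⊓ ψ t.length) ⊓ (tG τ ⊓ tND (t ++ [0])) with hd
    have h4 : d ⊓ Rs A t.length = ⊥ := by
      refine eq_bot_iff.2 ((inf_le_inf_right _ (inf_le_right.trans inf_le_right)).trans ?_)
      unfold Rs
      rw [inf_iSup_eq]
      refine iSup_le fun s => ?_
      rw [inf_iSup_eq]
      refine iSup_le fun hs => ?_
      exact (hinc _ _ (not_cmp hs.symm 0 1 (by norm_num))).le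
    have h5 : d ≤ tE IsSac A (ψ t.length) := inf_le_left.trans (ce_mono hE inf_le_right)
    exact case_b h3 h4 h5

end Pool.Agent.Lib.MP_a78e1f_lc.H18
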